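import Pool.Agent.H743V.Dom

/-!
# Attachable sets in graphs with domination number at most two or with a clique cover

A set `S` of vertices of a finite graph `G` is attachable in `G` if for all finite graphs `H` every set of
vertices of `G □ H` which dominates `(V(G) ∖ S) × V(H)` has at least `γ(G) γ(H)` elements. Q1 asks
whether `{u}` is attachable if `G` satisfies Vizing's conjecture and `γ(G - u) ≥ γ(G)`. The condition on
`u` is necessary; for a set `S` the corresponding necessary condition is that every set which dominates
`V(G) ∖ S` has at least `γ(G)` elements.

If `γ(G) ≤ 2`, the condition is sufficient. It is also sufficient if it holds for a graph `G'` on the same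
vertices which contains `G`, with `γ(G') = γ(G) = k`, and whose vertices are covered by `k` cliques. The
argument of Barcalkin and German counts the cells `C_i × {h}` (`C_i` the cliques) which contain elements
of `D` and those which are dominated from the layer of `h` only. For `γ(G) = 2` the two cliques are
obtained from a maximal clique in `V(G) ∖ S`.
-/

set_option autoImplicit false

namespace Pool.Agent.Results.MP_c351d3_co.DominationNumberTwo

open Pool.Agent.H743V

/-- **Theorem.** Let `G` be a finite graph and `S` a set of vertices.
(1) If `γ(G) ≤ 2`, then `S` is attachable in `G` if and only if every set which dominates `V(G) ∖ S` has at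
least `γ(G)` elements; for `S = {u}` this means that `γ(G - u) ≥ γ(G)`.
(2) Let `G'` be a graph with the same vertices which contains `G`, with `γ(G') = γ(G) = k` and with a
partition of the vertices into `k` cliques. If every set which dominates `V(G) ∖ S` in `G'` has at least
`k` elements, then `S` is attachable in `G`. -/
theorem result {V : Type} [Fintype V] (G : SimpleGraph V) (S : Set V) :
    (gamma G ≤ 2 → (Attachable G S ↔ gamma G ≤ gammaOn G Sᶜ)) ∧
    (∀ u, S = {u} → (gamma G ≤ gammaOn G Sᶜ ↔ gamma G ≤ gamma (del G u))) ∧
    (∀ G' : SimpleGraph V, G ≤ G' → gamma G' = gamma G →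
      (∃ c : V → Fin (gamma G), ∀ v w, c v = c w → v ≠ w → G'.Adj v w) →
      gamma G' ≤ gammaOn G' Sᶜ → Attachable G S) := by
  refine ⟨fun hk => ⟨fun h => gammaOn_ge_of_bound G S (h Unit _), fun hS W _ H D hD => ?_⟩,
    fun u hu => ?_, fun G' hG hgam hc hS => ?_⟩
  · exact small G Sᶜ _ hk hS H D hD
  · subst hu
    exact ⟨fun h => h.trans (gammaOn_del G u), fun h => gammaOn_compl_ge G u h⟩
  · obtain ⟨c, hc⟩ := hc
    intro W _ H D hD
    refine clique_partition G G' hG _ c hc Sᶜ ?_ H D hD
    rw [← hgam]
    exact hS

end Pool.Agent.Results.MP_c351d3_co.DominationNumberTwo
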