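import Pool.Agent.H743V.Dom

/-!
# Attachability of vertices, relative to the graphs which satisfy Vizing's conjecture

Let `G` be a finite graph and `S` a set of vertices of `G`. The set `S` is attachable in `G` if for all
finite graphs `H` every set of vertices of `G □ H` which dominates `(V(G) ∖ S) × V(H)` has at least
`γ(G) γ(H)` elements (`BoundFor G S H`). Q1 asks whether `{u}` is attachable if `G` satisfies Vizing's
conjecture and `γ(G - u) ≥ γ(G)`.

We prove that the bound holds for all graphs `G` (whether they satisfy Vizing's conjecture or not) with
`γ(G - u) ≥ γ(G)` and for all graphs `H` which satisfy Vizing's conjecture. So only graphs `H` which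
violate Vizing's conjecture can be used to answer Q1 negatively. For the proof one joins `m` copies of
`G` through a new vertex which is adjacent to the vertices of the copies which are in `S`; if `D`
dominates `(V(G) ∖ S) × V(H)`, then `m` copies of `D` and the fibre over the new vertex dominate the
product of the new graph with `H`, and the domination number of the new graph is at least
`m` times the least size of a set which dominates `V(G) ∖ S`. Divide by `m`.
-/

set_option autoImplicit false

namespace Pool.Agent.Results.MP_c351d3_co.RelativeToVizing

open Pool.Agent.H743V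

/-- **Theorem.** Let `G` be a finite graph.
(1) For every set `S` of vertices the following are equivalent: every set which dominates `V(G) ∖ S` has
at least `γ(G)` elements; for all `H` which satisfy Vizing's conjecture, every set of vertices of
`G □ H` which dominates `(V(G) ∖ S) × V(H)` has at least `γ(G) γ(H)` elements.
(2) For a vertex `u` and `S = {u}` these properties are equivalent to `γ(G - u) ≥ γ(G)`.
(3) Hence, if `γ(G - u) ≥ γ(G)`, all graphs `H` for which the bound fails for `S = {u}` violate Vizing's
conjecture; they have `γ(H) ≥ 3`. -/
theorem result {V : Type} [Fintype V] (G : SimpleGraph V) :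
    (∀ S : Set V, gamma G ≤ gammaOn G Sᶜ ↔
      ∀ (W : Type) [Fintype W] (H : SimpleGraph W), SatisfiesVizing H → BoundFor G S H) ∧
    (∀ u, gamma G ≤ gamma (del G u) ↔
      ∀ (W : Type) [Fintype W] (H : SimpleGraph W), SatisfiesVizing H → BoundFor G {u} H) ∧
    (∀ u, gamma G ≤ gamma (del G u) → ∀ (W : Type) [Fintype W] (H : SimpleGraph W),
      ¬ BoundFor G {u} H → ¬ SatisfiesVizing H ∧ 3 ≤ gamma H) := by
  have h2 : ∀ u, gamma G ≤ gamma (del G u) → ∀ (W : Type) [Fintype W] (H : SimpleGraph W),
      SatisfiesVizing H → BoundFor G {u} H := by
    intro u hu W _ H hH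
    exact bound_of_vizing G {u} (gammaOn_compl_ge G u hu) W H hH
  refine ⟨fun S => ⟨bound_of_vizing G S, fun h => gammaOn_ge_of_bound G S (h Unit _ vizing_unit)⟩,
    fun u => ⟨h2 u, fun h => (gammaOn_ge_of_bound G {u} (h Unit _ vizing_unit)).trans
      (gammaOn_del G u)⟩, fun u hu W _ H hn => ?_⟩
  have hv : ¬ SatisfiesVizing H := fun hH => hn (h2 u hu W H hH)
  refine ⟨hv, ?_⟩
  by_contra hlt
  exact hv (vizing_of_le_two H (by omega))

end Pool.Agent.Results.MP_c351d3_co.RelativeToVizing
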