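import Mathlib

/-!
# Attachable vertices of strongly chordal graphs

A vertex `u` of a finite graph `G` is attachable when every set of vertices of `G □ H` that
dominates `(V(G) ∖ {u}) × V(H)` has at least `γ(G) γ(H)` elements, for every finite graph `H`.
We prove that a vertex `u` of a strongly chordal graph `G` with `γ(G - u) ≥ γ(G)` is attachable.
-/

namespace Pool.Agent.Results.MP_c351d3_co.StronglyChordal

open Finset

/-- `D` dominates every vertex outside `S`: such a vertex lies in `D` or has a neighbour in `D`.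
The set `D` may contain vertices of `S`. -/
def DomOff {V : Type} (G : SimpleGraph V) (S : Set V) (D : Finset V) : Prop :=
  ∀ v, v ∉ S → v ∈ D ∨ ∃ w ∈ D, G.Adj v w

/-- The domination number: the least size of a set dominating all vertices. -/
noncomputable def gamma {V : Type} (G : SimpleGraph V) : ℕ :=
  sInf {n | ∃ D : Finset V, DomOff G ∅ D ∧ D.card = n}

/-- The graph `G - u`. -/
def del {V : Type} (G : SimpleGraph V) (u : V) : SimpleGraph {v : V // v ≠ u} :=
  G.comap Subtype.val

/-- `S` is attachable in `G`: for every finite graph `H`, every set of vertices of `G □ H` that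
dominates all vertices `(v, h)` with `v ∉ S` has at least `γ(G) γ(H)` elements. -/
def Attachable {V : Type} (G : SimpleGraph V) (S : Set V) : Prop :=
  ∀ (W : Type) [Fintype W] (H : SimpleGraph W) (D : Finset (V × W)),
    DomOff (G.boxProd H) {x | x.1 ∈ S} D → gamma G * gamma H ≤ D.card

/-- `w` lies in the closed neighbourhood of `v`. -/
def Cl {V : Type} (G : SimpleGraph V) (v w : V) : Prop := v = w ∨ G.Adj v w

/-- `G` has a strong elimination ordering, that is an ordering of its vertices such that
`a < b`, `c < d`, `c ∈ N[a]`, `d ∈ N[a]` and `c ∈ N[b]` imply `d ∈ N[b]`. By a theorem of Farber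
these are exactly the strongly chordal graphs. -/
def HasStrongElimination {V : Type} (G : SimpleGraph V) : Prop :=
  ∃ f : V → ℕ, Function.Injective f ∧ ∀ a b c d : V, f a < f b → f c < f d →
    Cl G a c → Cl G a d → Cl G b c → Cl G b d

lemma gamma_le {V : Type} {G : SimpleGraph V} {D : Finset V} (h : DomOff G ∅ D) :
    gamma G ≤ D.card :=
  Nat.sInf_le ⟨D, h, rfl⟩

open Classical in
/-- Minimum domination equals maximum packing of closed neighbourhoods. -/
lemma exists_packing {V : Type} [Fintype V] (G : SimpleGraph V) (f : V → ℕ)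
    (hf : Function.Injective f) (hG : ∀ a b c d : V, f a < f b → f c < f d →
      Cl G a c → Cl G a d → Cl G b c → Cl G b d) (n : ℕ) :
    ∀ T : Finset V, T.card = n → ∃ X P : Finset V, P ⊆ T ∧ X.card ≤ P.card ∧
      (∀ z ∈ T, ∃ y ∈ X, Cl G z y) ∧
      (∀ p ∈ P, ∀ q ∈ P, p ≠ q → ∀ y, Cl G p y → ¬ Cl G q y) := by
  induction n using Nat.strong_induction_on with
  | _ n ih =>
    intro T hT
    rcases T.eq_empty_or_nonempty with rfl | hne
    · exact ⟨∅, ∅, by simp, by simp, by simp, by simp⟩
    obtain ⟨x, hxT, hx⟩ := exists_min_image T f hne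
    have hne2 : (univ.filter fun y => Cl G x y).Nonempty :=
      ⟨x, mem_filter.2 ⟨mem_univ _, Or.inl rfl⟩⟩
    obtain ⟨y, hy1, hy⟩ := exists_max_image (univ.filter fun y => Cl G x y) f hne2
    simp only [mem_filter, mem_univ, true_and] at hy1 hy
    have hsub : T.filter (fun z => ¬ Cl G z y) ⊆ T.erase x := by
      intro z hz
      rw [mem_filter] at hz
      rw [mem_erase]
      exact ⟨fun e => hz.2 (e ▸ hy1), hz.1⟩
    have hlt : (T.filter fun z => ¬ Cl G z y).card < n := by
      have h1 := card_le_card hsub
      have h2 := card_erase_lt_of_mem hxT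
      omega
    obtain ⟨X, P, hP, hXP, hX, hPP⟩ := ih _ hlt (T.filter fun z => ¬ Cl G z y) rfl
    have hxP : x ∉ P := fun h => by
      have h1 := hsub (hP h)
      simp at h1
    have key : ∀ q ∈ P, ∀ w, Cl G x w → ¬ Cl G q w := by
      intro q hq w hxw hqw
      have h1 := mem_filter.1 (hP hq)
      have hqx : q ≠ x := fun e => hxP (e ▸ hq)
      have h2 : f x < f q :=
        lt_of_le_of_ne (hx q h1.1) (fun e => hqx (hf e.symm))
      by_cases hwy : w = y
      · exact h1.2 (hwy ▸ hqw)
      · have h3 : f w < f y := lt_of_le_of_ne (hy w hxw) (fun e => hwy (hf e))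
        exact h1.2 (hG x q w y h2 h3 hxw hy1 hqw)
    refine ⟨insert y X, insert x P, ?_, ?_, ?_, ?_⟩
    · intro z hz
      rcases mem_insert.1 hz with rfl | hz
      · exact hxT
      · exact (mem_filter.1 (hP hz)).1
    · rw [card_insert_of_notMem hxP]
      exact (card_insert_le _ _).trans (Nat.add_le_add_right hXP 1)
    · intro z hz
      by_cases hzy : Cl G z y
      · exact ⟨y, mem_insert_self _ _, hzy⟩
      · obtain ⟨w, hw, h1⟩ := hX z (mem_filter.2 ⟨hz, hzy⟩)
        exact ⟨w, mem_insert_of_mem hw, h1⟩
    · intro p hp q hq hpq w hpw hqw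
      rcases mem_insert.1 hp with h4 | h4 <;> rcases mem_insert.1 hq with h5 | h5
      · exact hpq (h4.trans h5.symm)
      · rw [h4] at hpw
        exact key q h5 w hpw hqw
      · rw [h5] at hqw
        exact key p h4 w hqw hpw
      · exact hPP p h4 q h5 hpq w hpw hqw

open Classical in
/-- A set dominating all vertices other than `u` has at least `γ(G)` elements. -/
lemma card_of_domOff {V : Type} [Fintype V] (G : SimpleGraph V) (u : V)
    (h : gamma G ≤ gamma (del G u)) (X : Finset V) (hX : DomOff G {u} X) : gamma G ≤ X.card := by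
  by_cases hu : u ∈ X
  · refine gamma_le fun v _ => ?_
    by_cases hv : v = u
    · left; rw [hv]; exact hu
    · exact hX v (by simpa using hv)
  · refine h.trans ?_
    have h1 : DomOff (del G u) ∅ (X.subtype fun v => v ≠ u) := by
      rintro ⟨v, hv⟩ _
      rcases hX v (by simpa using hv) with h1 | ⟨w, hw, h1⟩
      · left; simpa using h1
      · have hwu : w ≠ u := fun e => hu (e ▸ hw)
        exact Or.inr ⟨⟨w, hwu⟩, by simpa using hw, h1⟩
    refine (gamma_le h1).trans ?_
    rw [card_subtype]
    exact card_le_card (filter_subset _ _)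

open Classical in
/-- **Attachable vertices of strongly chordal graphs.** If `G` is a finite strongly chordal graph
and `u` a vertex with `γ(G - u) ≥ γ(G)`, then `u` is attachable in `G`. -/
theorem result (V : Type) [Fintype V] (G : SimpleGraph V) (u : V)
    (hG : HasStrongElimination G) (hu : gamma G ≤ gamma (del G u)) : Attachable G {u} := by
  intro W _ H D hD
  obtain ⟨f, hf, hG⟩ := hG
  obtain ⟨X, P, hPT, hXP, hX, hPP⟩ := exists_packing G f hf hG _ (univ.erase u) rfl
  have h1 : gamma G ≤ X.card := card_of_domOff G u hu X (fun v hv => by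
    obtain ⟨y, hy, h1⟩ := hX v (mem_erase.2 ⟨by simpa using hv, mem_univ _⟩)
    rcases h1 with rfl | h1
    · exact Or.inl hy
    · exact Or.inr ⟨y, hy, h1⟩)
  have h2 : ∀ p ∈ P, gamma H ≤ (D.filter fun x => Cl G p x.1).card := by
    intro p hp
    have hpu : p ≠ u := (mem_erase.1 (hPT hp)).1
    have h3 : DomOff H ∅ ((D.filter fun x => Cl G p x.1).image Prod.snd) := by
      intro h _
      rcases hD (p, h) (by simpa using hpu) with h4 | ⟨⟨w, h'⟩, h4, h5⟩
      · left
        exact mem_image.2 ⟨(p, h), mem_filter.2 ⟨h4, Or.inl rfl⟩, rfl⟩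
      · rw [SimpleGraph.boxProd_adj] at h5
        rcases h5 with ⟨h5, h6⟩ | ⟨h5, h6⟩
        · simp only at h5 h6
          subst h6
          left
          exact mem_image.2 ⟨(w, h), mem_filter.2 ⟨h4, Or.inr h5⟩, rfl⟩
        · simp only at h5 h6
          subst h6
          right
          exact ⟨h', mem_image.2 ⟨(p, h'), mem_filter.2 ⟨h4, Or.inl rfl⟩, rfl⟩, h5⟩
    exact (gamma_le h3).trans card_image_le
  have h3 : (P : Set V).PairwiseDisjoint fun p => D.filter fun x => Cl G p x.1 := by
    intro p hp q hq hpq
    change Disjoint _ _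
    rw [disjoint_filter]
    intro x _ h4 h5
    exact hPP p hp q hq hpq x.1 h4 h5
  calc gamma G * gamma H ≤ P.card * gamma H := Nat.mul_le_mul_right _ (h1.trans hXP)
    _ = ∑ _p ∈ P, gamma H := by simp
    _ ≤ ∑ p ∈ P, (D.filter fun x => Cl G p x.1).card := sum_le_sum h2
    _ = (P.biUnion fun p => D.filter fun x => Cl G p x.1).card := (card_biUnion h3).symm
    _ ≤ D.card := card_le_card (biUnion_subset.2 fun p _ => filter_subset _ _)

end Pool.Agent.Results.MP_c351d3_co.StronglyChordal
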